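import Pool.Agent.H24.NVK.MU01

/-! Row M_MU2 of the board `nvk_modules`: smoothed sums of the convolution square of the Moebius
function. -/

set_option autoImplicit false

open MeasureTheory Set Filter Topology

namespace Pool.Agent.H98.NVK

open Pool.Agent.H23.NVK Pool.Agent.H24.NVK

variable {α : Type} {N : α → ℕ} {ρ δ : ℝ}

lemma Lam_congr (h : AxA N ρ δ) (a : (α →₀ ℕ) → ℝ) {f g : ℝ → ℝ} {y : ℝ}
    (hfg : ∀ x, 1 ≤ x → f x = g x) : Lam N a f y = Lam N a g y := by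
  unfold Lam
  refine Finset.sum_congr rfl fun n hn => ?_
  rw [hfg _ (one_le_div h hn).2.2]

lemma Lam_m2 (hCVI : T_CVI) (h : AxA N ρ δ) (f : ℝ → ℝ) (y : ℝ) :
    Lam N m2 f y = Lam N mr (Lam N mr f) y := by
  rw [h.Lam_Lam]
  have e : cv (mr (α := α)) mr = m2 := funext fun n => (hCVI α).2.1 n
  rw [e]

lemma Lam_bound_const (hCVI : T_CVI) (hSUM : T_SUM) (h : AxA N ρ δ) :
    ∃ K : ℝ, 0 < K ∧ ∀ (f : ℝ → ℝ) (D y : ℝ), 1 ≤ y → 0 ≤ D →
      (∀ x, 1 ≤ x → |f x| ≤ D) → |Lam N mr f y| ≤ D * K * (1 + Real.log y) := by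
  obtain ⟨K, hK, h1⟩ := (hSUM α N ρ δ h).2.2.2
  refine ⟨K, hK, fun f D y hy hD hf => ?_⟩
  unfold Lam
  have h2 : ∀ n ∈ FM N y, |mr n / nF N n * f (y / nF N n)| ≤ D * (1 / (nF N n : ℝ)) := by
    intro n hn
    obtain ⟨h3, h4, h5⟩ := one_le_div h hn
    have h6 : (0 : ℝ) < nF N n := h.nF_pos n
    have h8 : |mr n| ≤ 1 := (hCVI α).2.2.2.2.2 n
    rw [abs_mul, abs_div, abs_of_pos h6]
    calc |mr n| / nF N n * |f (y / nF N n)| ≤ 1 / nF N n * D := by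
          gcongr
          exact hf _ h5
      _ = _ := by ring
  refine (Finset.abs_sum_le_sum_abs _ _).trans ((Finset.sum_le_sum h2).trans ?_)
  rw [← Finset.mul_sum, mul_assoc]
  exact mul_le_mul_of_nonneg_left (h1 y hy) hD

lemma B_rec (hCVI : T_CVI) (hSUM : T_SUM) (hEXP : T_EXP) (h : AxA N ρ δ) (k : ℕ) :
    ∃ (c : ℕ → ℝ) (C : ℝ) (ε : ℝ → ℝ), 0 ≤ C ∧
    (∀ y, 1 ≤ y → |ε y| ≤ C * (1 + Real.log y)) ∧
    ∀ y : ℝ, 1 ≤ y → Lam N mr (lg k) y = ρ * Lam N m2 (lg (k + 1)) y / (k + 1) +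
      ∑ j ∈ Finset.range (k + 1), c j * Lam N m2 (lg j) y + ε y := by
  obtain ⟨c, C, ε, hC, hε, h0⟩ := M_rec hCVI hSUM hEXP h k
  obtain ⟨K, hK, hL⟩ := Lam_bound_const hCVI hSUM h
  refine ⟨c, C * K, Lam N mr ε, by positivity, fun y hy => hL ε C y hy hC hε, fun y hy => ?_⟩
  have h1 : Lam N mr (lg k) y = Lam N mr (fun x => ((ρ / ((k : ℝ) + 1)) *
      Lam N mr (lg (k + 1)) x + ∑ j ∈ Finset.range (k + 1), c j * Lam N mr (lg j) x) + ε x) y := by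
    refine Lam_congr h _ fun x hx => ?_
    rw [h0 x hx]
    ring
  rw [h1, Lam_add, Lam_add, Lam_smul, Lam_sum, ← Lam_m2 hCVI h]
  have h2 : ∀ j ∈ Finset.range (k + 1), Lam N mr (fun x => c j * Lam N mr (lg j) x) y =
      c j * Lam N m2 (lg j) y := by
    intro j _
    rw [Lam_m2 hCVI h]
    exact Lam_smul mr (c j) (Lam N mr (lg j)) y
  rw [Finset.sum_congr rfl h2]
  ring

/-- functions of size at most the logarithm -/
def LogB (f : ℝ → ℝ) : Prop := ∃ C : ℝ, 0 ≤ C ∧ ∀ y : ℝ, 1 ≤ y → |f y| ≤ C * (1 + Real.log y)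

lemma sum_logB {n : ℕ} {f : ℕ → ℝ → ℝ} (c : ℕ → ℝ) (h : ∀ j < n, LogB (f j)) :
    LogB (fun y => ∑ j ∈ Finset.range n, c j * f j y) := by
  induction n with
  | zero => exact ⟨0, le_rfl, fun y _ => by simp⟩
  | succ n ih =>
    obtain ⟨C1, hC1, h1⟩ := ih fun j hj => h j (by omega)
    obtain ⟨C2, hC2, h2⟩ := h n (by omega)
    refine ⟨C1 + |c n| * C2, by positivity, fun y hy => ?_⟩
    simp only [Finset.sum_range_succ]
    refine (abs_add_le _ _).trans ?_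
    rw [add_mul]
    refine add_le_add (h1 y hy) ?_
    rw [abs_mul, mul_assoc]
    gcongr
    exact h2 y hy

lemma B_rem (hCVI : T_CVI) (hSUM : T_SUM) (hEXP : T_EXP) (h0 : AxA N ρ δ) {k : ℕ}
    (h : ∀ j < k + 1, LogB (Lam N m2 (lg j))) : ∃ R : ℝ → ℝ, LogB R ∧
    ∀ y : ℝ, 1 ≤ y → Lam N m2 (lg (k + 1)) y = ((k + 1) / ρ) * Lam N mr (lg k) y + R y := by
  obtain ⟨c, C, ε, hC, hε, h1⟩ := B_rec hCVI hSUM hEXP h0 k
  obtain ⟨C2, hC2, h2⟩ := sum_logB c h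
  have hρ := h0.rho
  have hk : (0 : ℝ) < ((k : ℝ) + 1) / ρ := by positivity
  refine ⟨fun y => -(((k : ℝ) + 1) / ρ *
      (∑ j ∈ Finset.range (k + 1), c j * Lam N m2 (lg j) y + ε y)),
    ⟨((k : ℝ) + 1) / ρ * (C2 + C), by positivity, fun y hy => ?_⟩, fun y hy => ?_⟩
  · simp only
    rw [abs_neg, abs_mul, abs_of_pos hk, mul_assoc]
    refine mul_le_mul_of_nonneg_left ?_ hk.le
    rw [add_mul]
    exact (abs_add_le _ _).trans (add_le_add (h2 y hy) (hε y hy))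
  · rw [h1 y hy]
    have h3 : ((k : ℝ) + 1) ≠ 0 := by positivity
    have h4 : ρ ≠ 0 := hρ.ne'
    field_simp
    ring

lemma logB_add {f g : ℝ → ℝ} (hf : LogB f) (hg : LogB g) : LogB (fun y => f y + g y) := by
  obtain ⟨C1, hC1, h1⟩ := hf
  obtain ⟨C2, hC2, h2⟩ := hg
  refine ⟨C1 + C2, by positivity, fun y hy => ?_⟩
  rw [add_mul]
  exact (abs_add_le _ _).trans (add_le_add (h1 y hy) (h2 y hy))

lemma logB_smul {f : ℝ → ℝ} (c : ℝ) (hf : LogB f) : LogB (fun y => c * f y) := by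
  obtain ⟨C1, hC1, h1⟩ := hf
  refine ⟨|c| * C1, by positivity, fun y hy => ?_⟩
  rw [abs_mul, mul_assoc]
  gcongr
  exact h1 y hy

lemma logB_congr {f g : ℝ → ℝ} (hf : LogB f) (h : ∀ y : ℝ, 1 ≤ y → g y = f y) : LogB g := by
  obtain ⟨C1, hC1, h1⟩ := hf
  exact ⟨C1, hC1, fun y hy => by rw [h y hy]; exact h1 y hy⟩

lemma logB_of_bound {f : ℝ → ℝ} {C : ℝ} (hC : 0 ≤ C) (h : ∀ y : ℝ, 1 ≤ y → |f y| ≤ C) :
    LogB f := by
  refine ⟨C, hC, fun y hy => (h y hy).trans ?_⟩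
  have := Real.log_nonneg hy
  nlinarith

lemma logB_lg1 : LogB (lg 1) := by
  refine ⟨1, by norm_num, fun y hy => ?_⟩
  have := Real.log_nonneg hy
  unfold lg
  rw [pow_one, abs_of_nonneg this]
  linarith

lemma logB_M0 (hCVI : T_CVI) (hSUM : T_SUM) (h : AxA N ρ δ) : LogB (Lam N mr (lg 0)) := by
  obtain ⟨C, hC, h1⟩ := M0_bound hCVI hSUM h
  exact logB_of_bound hC.le h1

lemma logB_M1 (hCVI : T_CVI) (hSUM : T_SUM) (hEXP : T_EXP) (h : AxA N ρ δ) :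
    LogB (Lam N mr (lg 1)) := by
  obtain ⟨C, hC, h1⟩ := M1_bound hCVI hSUM hEXP h
  exact logB_of_bound hC h1

lemma logB_M2 (hCVI : T_CVI) (hSUM : T_SUM) (hEXP : T_EXP) (h0 : AxA N ρ δ) :
    LogB (Lam N mr (lg 2)) := by
  obtain ⟨C, hC, h⟩ := M_asymp hCVI hSUM hEXP h0 0
  have h1 : LogB (fun y => Lam N mr (lg 2) y - 2 / ρ * lg 1 y) := by
    refine logB_of_bound hC.le fun y hy => ?_
    have h2 := h y hy
    simpa using h2
  refine logB_congr (logB_add h1 (logB_smul (2 / ρ) logB_lg1)) fun y _ => by ring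

lemma logB_B (hCVI : T_CVI) (hSUM : T_SUM) (hEXP : T_EXP) (h0 : AxA N ρ δ) :
    ∀ j < 4, LogB (Lam N m2 (lg j)) := by
  have b0 : LogB (Lam N m2 (lg 0)) := by
    obtain ⟨C, hC, h1⟩ := M0_bound hCVI hSUM h0
    obtain ⟨K, hK, hL⟩ := Lam_bound_const hCVI hSUM h0
    refine ⟨C * K, by positivity, fun y hy => ?_⟩
    rw [Lam_m2 hCVI h0]
    exact hL _ C y hy hC.le h1
  have b1 : LogB (Lam N m2 (lg 1)) := by
    obtain ⟨R, hR, h⟩ := B_rem hCVI hSUM hEXP h0 (k := 0) (fun j hj => by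
      have : j = 0 := by omega
      rw [this]; exact b0)
    exact logB_congr (logB_add (logB_smul _ (logB_M0 hCVI hSUM h0)) hR) h
  have b2 : LogB (Lam N m2 (lg 2)) := by
    obtain ⟨R, hR, h⟩ := B_rem hCVI hSUM hEXP h0 (k := 1) (fun j hj => by
      have : j = 0 ∨ j = 1 := by omega
      rcases this with rfl | rfl
      · exact b0
      · exact b1)
    exact logB_congr (logB_add (logB_smul _ (logB_M1 hCVI hSUM hEXP h0)) hR) h
  have b3 : LogB (Lam N m2 (lg 3)) := by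
    obtain ⟨R, hR, h⟩ := B_rem hCVI hSUM hEXP h0 (k := 2) (fun j hj => by
      have : j = 0 ∨ j = 1 ∨ j = 2 := by omega
      rcases this with rfl | rfl | rfl
      · exact b0
      · exact b1
      · exact b2)
    exact logB_congr (logB_add (logB_smul _ (logB_M2 hCVI hSUM hEXP h0)) hR) h
  intro j hj
  have : j = 0 ∨ j = 1 ∨ j = 2 ∨ j = 3 := by omega
  rcases this with rfl | rfl | rfl | rfl
  · exact b0
  · exact b1
  · exact b2
  · exact b3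

lemma B_asymp (hCVI : T_CVI) (hSUM : T_SUM) (hEXP : T_EXP) (h0 : AxA N ρ δ) (k : ℕ) :
    ∃ C : ℝ, 0 < C ∧ ∀ y : ℝ, 1 ≤ y →
    |Lam N m2 (lg (k + 4)) y - ((k + 4) * (k + 3)) / ρ ^ 2 * lg (k + 2) y| ≤
      C * (1 + Real.log y) ^ (k + 2 - 1) := by
  have hρ := h0.rho
  have hρ' : ρ ≠ 0 := hρ.ne'
  induction k with
  | zero =>
    obtain ⟨R, ⟨C1, hC1, hR⟩, h⟩ := B_rem hCVI hSUM hEXP h0 (k := 3) (logB_B hCVI hSUM hEXP h0)
    obtain ⟨C, hC, h3⟩ := M_asymp hCVI hSUM hEXP h0 1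
    refine ⟨4 / ρ * C + C1, by positivity, fun y hy => ?_⟩
    have h1 := h y hy
    have h2 := h3 y hy
    have h4 : Lam N m2 (lg (0 + 4)) y - (((0 : ℕ) + 4) * ((0 : ℕ) + 3)) / ρ ^ 2 * lg (0 + 2) y =
        4 / ρ * (Lam N mr (lg 3) y - 3 / ρ * lg 2 y) + R y := by
      rw [show 0 + 4 = 3 + 1 from rfl, h1]
      push_cast
      field_simp
      ring
    rw [h4]
    have h5 : |Lam N mr (lg 3) y - 3 / ρ * lg 2 y| ≤ C * (1 + Real.log y) := by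
      have h6 := h2
      norm_num at h6
      exact h6
    have h7 : (0 : ℝ) < 4 / ρ := by positivity
    simp only [zero_add, Nat.reduceSub, pow_one]
    calc |4 / ρ * (Lam N mr (lg 3) y - 3 / ρ * lg 2 y) + R y|
        ≤ |4 / ρ * (Lam N mr (lg 3) y - 3 / ρ * lg 2 y)| + |R y| := abs_add_le _ _
      _ = 4 / ρ * |Lam N mr (lg 3) y - 3 / ρ * lg 2 y| + |R y| := by
          rw [abs_mul, abs_of_pos h7]
      _ ≤ 4 / ρ * (C * (1 + Real.log y)) + C1 * (1 + Real.log y) := by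
          gcongr
          exact hR y hy
      _ = _ := by ring
  | succ k ih =>
    obtain ⟨C, hC, h⟩ := ih
    have h1 := J_step h0 (A := ((k : ℝ) + 4) * (k + 3) / ρ ^ 2) (e := k + 2) h (by omega) hC.le
    refine ⟨((k + 4 : ℕ) + 1) * C, by positivity, fun y hy => ?_⟩
    have h2 := h1 y hy
    have h3 : (((k + 4 : ℕ) : ℝ) + 1) * (((k : ℝ) + 4) * (k + 3) / ρ ^ 2) /
        (((k + 2 : ℕ) : ℝ) + 1) =
        (((k + 1 : ℕ) : ℝ) + 4) * (((k + 1 : ℕ) : ℝ) + 3) / ρ ^ 2 := by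
      push_cast
      field_simp
      ring
    rw [h3] at h2
    exact h2

theorem pf_MU2 (hCVI : T_CVI) (hSUM : T_SUM) (hEXP : T_EXP) : T_MU2 := by
  intro α N ρ δ h0 k hk
  obtain ⟨j, rfl⟩ : ∃ j, k = j + 4 := ⟨k - 4, by omega⟩
  obtain ⟨C, hC, h⟩ := B_asymp hCVI hSUM hEXP h0 j
  refine ⟨C, hC, fun y hy => ?_⟩
  have h1 := h y hy
  have h2 : j + 4 - 3 = j + 2 - 1 := by omega
  have h3 : j + 4 - 2 = j + 2 := by omega
  have h4 : ((j + 4 : ℕ) : ℝ) * (((j + 4 : ℕ) : ℝ) - 1) = ((j : ℝ) + 4) * (j + 3) := by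
    push_cast
    ring
  rw [h2, h3, h4]
  exact h1

end Pool.Agent.H98.NVK
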